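import Pool.Agent.W425.BF.Stm

/-! BF-IIA: assembly of (II) (helper416). -/

set_option autoImplicit false

namespace Pool.Agent.W416.BF

open Pool.Agent.W425.BF
open Pool.Agent.W426.SM (gord face IsRay)
open Pool.Agent.W803.SM (filt mem_filt summable_half)

variable {n k : ℕ}

/-- the variables -/
noncomputable def yv (p : ℕ) (c : Fin n → ℕ) (b : Fin n → ℕ) (z t : ℂ) (x : Fin n) : ℂ :=
  (p : ℂ)⁻¹ * z ^ c x * t ^ b x

theorem W2_eq (p : ℕ) (c : Fin n → ℕ) (b : Fin n → ℕ) (z t : ℂ) (u : Fin n → ℕ) :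
    W2 p c (∑ x, u x * b x) z t u = ∏ x, yv p c b z t x ^ u x := by
  unfold W2 yv
  have h : ∀ x, ((p : ℂ)⁻¹ * z ^ c x * t ^ b x) ^ u x =
      ((p : ℂ)⁻¹ ^ u x * z ^ (c x * u x)) * t ^ (u x * b x) := by
    intro x
    rw [mul_pow, mul_pow, ← pow_mul, ← pow_mul, mul_comm (b x) (u x)]
  simp only [h]
  rw [Finset.prod_mul_distrib, Finset.prod_mul_distrib, Finset.prod_pow_eq_pow_sum,
    Finset.prod_pow_eq_pow_sum, Finset.prod_pow_eq_pow_sum]

theorem norm_inv_le {p : ℕ} (hp : 2 ≤ p) : ‖(p : ℂ)⁻¹‖ ≤ 1 / 2 := by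
  rw [norm_inv, Complex.norm_natCast, one_div]
  have h2 : (2 : ℝ) ≤ p := by exact_mod_cast hp
  gcongr

theorem norm_yv {p : ℕ} (hp : 2 ≤ p) (c : Fin n → ℕ) (b : Fin n → ℕ) {z t : ℂ}
    (hz : ‖z‖ ≤ 1) (ht : ‖t‖ ≤ 1) (x : Fin n) : ‖yv p c b z t x‖ < 1 := by
  unfold yv
  rw [norm_mul, norm_mul, norm_pow, norm_pow]
  have h1 := norm_inv_le hp
  have h2 : ‖z‖ ^ c x ≤ 1 := pow_le_one₀ (norm_nonneg _) hz
  have h3 : ‖t‖ ^ b x ≤ 1 := pow_le_one₀ (norm_nonneg _) ht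
  have h4 : ‖(p : ℂ)⁻¹‖ * ‖z‖ ^ c x ≤ 1 / 2 * 1 :=
    mul_le_mul h1 h2 (pow_nonneg (norm_nonneg _) _) (by norm_num)
  have h5 : ‖(p : ℂ)⁻¹‖ * ‖z‖ ^ c x * ‖t‖ ^ b x ≤ 1 / 2 * 1 * 1 :=
    mul_le_mul h4 h3 (pow_nonneg (norm_nonneg _) _) (by norm_num)
  linarith

theorem norm_W2 {p : ℕ} (hp : 2 ≤ p) (c : Fin n → ℕ) (N : ℕ) {z t : ℂ}
    (hz : ‖z‖ ≤ 1) (ht : ‖t‖ ≤ 1) (u : Fin n → ℕ) :
    ‖W2 p c N z t u‖ ≤ ∏ x, ((1 : ℝ) / 2) ^ u x := by
  unfold W2
  rw [norm_mul, norm_mul, norm_pow, norm_pow, norm_pow, Finset.prod_pow_eq_pow_sum]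
  have h1 : ‖(p : ℂ)⁻¹‖ ^ (∑ x, u x) ≤ (1 / 2) ^ (∑ x, u x) :=
    pow_le_pow_left₀ (norm_nonneg _) (norm_inv_le hp) _
  have h2 : ‖z‖ ^ (∑ x, c x * u x) ≤ 1 := pow_le_one₀ (norm_nonneg _) hz
  have h3 : ‖t‖ ^ N ≤ 1 := pow_le_one₀ (norm_nonneg _) ht
  calc ‖(p : ℂ)⁻¹‖ ^ (∑ x, u x) * ‖z‖ ^ (∑ x, c x * u x) * ‖t‖ ^ N
      ≤ (1 / 2) ^ (∑ x, u x) * 1 * 1 := by
        refine mul_le_mul (mul_le_mul h1 h2 (pow_nonneg (norm_nonneg _) _) (by positivity)) h3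
          (pow_nonneg (norm_nonneg _) _) (by positivity)
    _ = _ := by ring

/-- the variables, as polynomials -/
noncomputable def yp (p : ℕ) (c : Fin n → ℕ) (b : Fin n → ℕ) (x : Fin n) :
    Polynomial (Polynomial ℂ) :=
  Polynomial.C (Polynomial.C ((p : ℂ)⁻¹) * Polynomial.X ^ c x) * Polynomial.X ^ b x

/-- evaluation as a ring homomorphism -/
noncomputable def Φ (z t : ℂ) : Polynomial (Polynomial ℂ) →+* ℂ :=
  Polynomial.eval₂RingHom (Polynomial.evalRingHom z) t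

theorem ev2_eq (A : Polynomial (Polynomial ℂ)) (z t : ℂ) : ev2 A z t = Φ z t A := rfl

theorem Φ_yp (p : ℕ) (c : Fin n → ℕ) (b : Fin n → ℕ) (z t : ℂ) (x : Fin n) :
    Φ z t (yp p c b x) = yv p c b z t x := by
  have hC : ∀ q : Polynomial ℂ, Φ z t (Polynomial.C q) = q.eval z := by
    intro q
    simp only [Φ, Polynomial.coe_eval₂RingHom, Polynomial.eval₂_C, Polynomial.coe_evalRingHom]
  have hX : Φ z t Polynomial.X = t := by
    simp only [Φ, Polynomial.coe_eval₂RingHom, Polynomial.eval₂_X]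
  unfold yp yv
  rw [map_mul, map_pow, hC, hX]
  simp

theorem Φ_aeval (z t : ℂ) (g : Fin n → Polynomial (Polynomial ℂ)) (P : MvPolynomial (Fin n) ℤ) :
    Φ z t (MvPolynomial.aeval g P) = MvPolynomial.aeval (fun x => Φ z t (g x)) P := by
  induction P using MvPolynomial.induction_on with
  | C a => simp
  | add P Q hP hQ => simp only [map_add, hP, hQ]
  | mul_X P i hP => simp only [map_mul, MvPolynomial.aeval_X, hP]

theorem asm (m : Fin k → Fin n → ℕ) {I : Type} [Fintype I] [DecidableEq I]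
    (reg : I → Set (Fin n → ℕ)) (j : I → Fin k) (T : I → ℕ) (ray : ∀ x, Fin (T x) → Fin n → ℕ)
    (P : I → MvPolynomial (Fin n) ℤ)
    (hcov : ∀ u, ∃ x, u ∈ reg x) (hdis : ∀ x x', x ≠ x' → Disjoint (reg x) (reg x'))
    (hP : ∀ x, ∀ y : Fin n → ℂ, (∀ a, ‖y a‖ < 1) →
      (∑' u : reg x, ∏ a, y a ^ (u : Fin n → ℕ) a) * ∏ q, (1 - ∏ a, y a ^ ray x q a) =
        MvPolynomial.aeval y (P x))
    (p : ℕ) (hp : 2 ≤ p) (c : Fin n → ℕ) (γ : Finset (Fin k) → Polynomial ℂ)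
    (K : I → Polynomial (Polynomial ℂ))
    (hK : ∀ x, ∀ z t : ℂ, ‖z‖ ≤ 1 → ‖t‖ ≤ 1 →
      ∑' u : reg x, W2 p c (gord m u.1) z t u.1 * (γ (filt m u.1)).eval t =
        ev2 (K x) z t * ∑' u : reg x, W2 p c (∑ a, u.1 a * m (j x) a) z t u.1) :
    ∃ B : Polynomial (Polynomial ℂ), ∀ z t : ℂ, ‖z‖ ≤ 1 → ‖t‖ ≤ 1 →
      Gz m γ p c z t *
        ∏ x, ∏ q, (1 - W2 p c (∑ a, ray x q a * m (j x) a) z t (ray x q)) = ev2 B z t := by
  set D : I → Polynomial (Polynomial ℂ) := fun x => ∏ q, (1 - ∏ a, yp p c (m (j x)) a ^ ray x q a)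
    with hD
  refine ⟨∑ x, K x * MvPolynomial.aeval (yp p c (m (j x))) (P x) *
    ∏ x' ∈ Finset.univ.erase x, D x', ?_⟩
  intro z t hz ht
  have hDe : ∀ x, Φ z t (D x) =
      ∏ q, (1 - W2 p c (∑ a, ray x q a * m (j x) a) z t (ray x q)) := by
    intro x
    simp only [hD, map_prod, map_sub, map_one, map_pow, Φ_yp, W2_eq]
  have hsumm : Summable (fun u : Fin n → ℕ =>
      W2 p c (gord m u) z t u * (γ (filt m u)).eval t) := by
    refine Summable.of_norm_bounded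
      (g := fun u : Fin n → ℕ => (∏ i, ((1 : ℝ) / 2) ^ u i) *
        ∑ τ : Finset (Fin k), ‖(γ τ).eval t‖)
      (summable_half.mul_right _) fun u => ?_
    rw [norm_mul]
    refine mul_le_mul (norm_W2 hp c _ hz ht u) ?_ (norm_nonneg _)
      (Finset.prod_nonneg fun i _ => by positivity)
    exact Finset.single_le_sum (f := fun τ => ‖(γ τ).eval t‖) (fun τ _ => norm_nonneg _)
      (Finset.mem_univ (filt m u))
  have hsplit : Gz m γ p c z t =
      ∑ x, ∑' u : reg x, W2 p c (gord m u.1) z t u.1 * (γ (filt m u.1)).eval t := by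
    unfold Gz
    choose φ hφ using hcov
    have h3 := (Equiv.sigmaFiberEquiv φ).tsum_eq
      (fun u : Fin n → ℕ => W2 p c (gord m u) z t u * (γ (filt m u)).eval t)
    have h4 : Summable (fun x : (Σ τ, {u // φ u = τ}) =>
        W2 p c (gord m ((Equiv.sigmaFiberEquiv φ) x)) z t ((Equiv.sigmaFiberEquiv φ) x) *
          (γ (filt m ((Equiv.sigmaFiberEquiv φ) x))).eval t) :=
      (Equiv.summable_iff (Equiv.sigmaFiberEquiv φ)).2 hsumm
    rw [← h3, h4.tsum_sigma, tsum_fintype]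
    refine Finset.sum_congr rfl fun x _ => ?_
    have h5 : (reg x : Set (Fin n → ℕ)) = {u | φ u = x} := by
      ext u
      simp only [Set.mem_ofPred_eq]
      constructor
      · intro h
        by_contra hne
        exact Set.disjoint_left.1 (hdis (φ u) x hne) (hφ u) h
      · rintro rfl
        exact hφ u
    rw [tsum_congr_set_coe (fun u : Fin n → ℕ =>
      W2 p c (gord m u) z t u * (γ (filt m u)).eval t) h5]
    rfl
  rw [ev2_eq, hsplit, map_sum, Finset.sum_mul]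
  refine Finset.sum_congr rfl fun x _ => ?_
  rw [hK x z t hz ht, map_mul, map_mul, map_prod, Φ_aeval]
  have h6 := hP x (yv p c (m (j x)) z t) (norm_yv hp c _ hz ht)
  have h7 : (fun a => Φ z t (yp p c (m (j x)) a)) = yv p c (m (j x)) z t := by
    funext a
    exact Φ_yp p c _ z t a
  rw [h7, ← h6, ← Finset.mul_prod_erase Finset.univ
    (fun x => ∏ q, (1 - W2 p c (∑ a, ray x q a * m (j x) a) z t (ray x q))) (Finset.mem_univ x)]
  simp only [hDe, ev2_eq, W2_eq]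
  ring

/-- (IIA) -/
theorem main : TaskIIA := by
  classical
  intro hGF hFIB hDISJ hNPA hCELL n k m i hk
  obtain ⟨S, ι, hι, h, d, τ, hτ, hne, hcov, hout, hdis, hray⟩ := hCELL m i hk
  choose T1 ray1 P1 hE1 hP1 using fun j0 : {j0 : Fin k // m j0 i = 1} =>
    hGF (cf m i j0.1) (cd m i j0.1)
  choose T2 ray2 P2 hE2 hP2 using fun σ : Fin S => hGF (h σ) (d σ)
  choose j1 hj1 using hne
  let I := {j0 : Fin k // m j0 i = 1} ⊕ Fin S
  let reg : I → Set (Fin n → ℕ) := Sum.elim (fun j0 => PA m i j0.1) (fun σ => Pol (h σ) (d σ))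
  let j : I → Fin k := Sum.elim (fun j0 => j0.1) j1
  let T : I → ℕ := Sum.elim T1 T2
  let ray : ∀ x : I, Fin (T x) → Fin n → ℕ := fun x => match x with
    | Sum.inl j0 => ray1 j0
    | Sum.inr σ => ray2 σ
  let P : I → MvPolynomial (Fin n) ℤ := Sum.elim P1 P2
  have hrayI : ∀ (x : I) (q : Fin (T x)), ray x q ≠ 0 ∧ ∀ a, Rem m i a → ¬ Par a (ray x q) := by
    rintro (j0 | σ) q
    · exact ⟨(hE1 j0 q).1, fun a ha => hNPA m i j0.1 j0.2 _ (hE1 j0 q) a ha⟩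
    · exact ⟨(hE2 σ q).1, fun a ha => hray σ _ (hE2 σ q) a ha⟩
  let ψ : (Σ x : I, Fin (T x)) ≃ Fin (Fintype.card (Σ x : I, Fin (T x))) :=
    Fintype.equivFin (Σ x : I, Fin (T x))
  refine ⟨Fintype.card (Σ x : I, Fin (T x)), fun q => ray (ψ.symm q).1 (ψ.symm q).2,
    fun q => ∑ a, ray (ψ.symm q).1 (ψ.symm q).2 a * m (j (ψ.symm q).1) a,
    fun q => hrayI _ _, ?_⟩
  intro p hp c hc E γ hR
  obtain ⟨B, hB⟩ := asm m reg j T ray P
    (by
      intro u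
      rcases hcov u with ⟨j0, hj0, hu⟩ | ⟨σ, hu⟩
      · exact ⟨Sum.inl ⟨j0, hj0⟩, hu⟩
      · exact ⟨Sum.inr σ, hu⟩)
    (by
      rintro (j0 | σ) (j0' | σ') hx
      · refine hDISJ m i j0.1 j0'.1 j0.2 j0'.2 fun h => hx ?_
        rw [Subtype.ext h]
      · exact Set.disjoint_left.2 fun u h1 h2 => hout σ' u h2 j0.1 j0.2 h1
      · exact Set.disjoint_left.2 fun u h1 h2 => hout σ u h1 j0'.1 j0'.2 h2
      · exact hdis σ σ' fun h => hx (by rw [h]))
    (by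
      rintro (j0 | σ) y hy
      · exact hP1 j0 y hy
      · exact hP2 σ y hy)
    p hp c γ
    (Sum.elim (fun _ => Polynomial.C (Polynomial.C E) *
      (1 - Polynomial.C (Polynomial.C ((p : ℂ)⁻¹)) * Polynomial.X))
      (fun σ => (γ (τ σ)).map Polynomial.C))
    (by
      rintro (j0 | σ) z t hz ht
      · have h1 := hFIB m i j0.1 j0.2 p hp c hc E γ hR z t hz ht
        refine h1.trans ?_
        congr 1
        simp [ev2]
      · have h2 : ev2 ((γ (τ σ)).map Polynomial.C) z t = (γ (τ σ)).eval t := by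
          unfold ev2
          rw [Polynomial.eval₂_map]
          have : (Polynomial.evalRingHom z).comp Polynomial.C = RingHom.id ℂ := by
            ext; simp
          rw [this]
          rfl
        show ∑' u : Pol (h σ) (d σ), W2 p c (gord m u.1) z t u.1 * (γ (filt m u.1)).eval t =
          ev2 ((γ (τ σ)).map Polynomial.C) z t *
            ∑' u : Pol (h σ) (d σ), W2 p c (∑ a, u.1 a * m (j1 σ) a) z t u.1
        rw [h2, ← tsum_mul_left]
        refine tsum_congr fun u => ?_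
        have h3 := hτ σ u.1 u.2
        have h4 : ∑ a, u.1 a * m (j1 σ) a = gord m u.1 := mem_filt.1 (h3 ▸ hj1 σ)
        rw [h3, h4, mul_comm])
  refine ⟨B, fun z t hz ht => ?_⟩
  rw [← hB z t hz ht]
  congr 1
  rw [Equiv.prod_comp ψ.symm (fun x : (Σ x : I, Fin (T x)) =>
    1 - W2 p c (∑ a, ray x.1 x.2 a * m (j x.1) a) z t (ray x.1 x.2)), Fintype.prod_sigma]

end Pool.Agent.W416.BF
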